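import Mathlib
open Set Metric Topology

namespace Pool.Agent.Stechkin

/-- the plane with norm `max |z| (2 |Im z|)`, realised as a graph -/
def S : Submodule ℝ (ℂ × ℝ) where
  carrier := {p | p.2 = 2 * p.1.im}
  add_mem' := by
    intro a b ha hb
    simp only [Set.mem_setOf_eq, Prod.snd_add, Prod.fst_add, Complex.add_im] at *
    rw [ha, hb]; ring
  zero_mem' := by simp
  smul_mem' := by
    intro c x hx
    simp only [Set.mem_setOf_eq, Prod.smul_snd, Prod.smul_fst, Complex.smul_im, smul_eq_mul] at *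
    rw [hx]; ring

abbrev E : Type := ↥S

def mk (z : ℂ) : E := ⟨(z, 2 * z.im), rfl⟩

def pr (p : E) : ℂ := p.1.1

lemma pr_sub (p q : E) : pr (p - q) = pr p - pr q := rfl
lemma pr_add (p q : E) : pr (p + q) = pr p + pr q := rfl
lemma pr_smul (c : ℝ) (p : E) : pr (c • p) = c • pr p := rfl

lemma norm_def (p : E) : ‖p‖ = max ‖pr p‖ (2 * |(pr p).im|) := by
  have h1 : ‖p‖ = ‖(p : ℂ × ℝ)‖ := rfl
  rw [h1, Prod.norm_def]
  have h2 : (p : ℂ × ℝ).2 = 2 * (p : ℂ × ℝ).1.im := p.2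
  rw [h2]
  simp [pr, abs_mul]

lemma pr_inj {p q : E} (h : pr p = pr q) : p = q := by
  apply Subtype.ext
  apply Prod.ext h
  have h1 : (p : ℂ × ℝ).2 = 2 * (p : ℂ × ℝ).1.im := p.2
  have h2 : (q : ℂ × ℝ).2 = 2 * (q : ℂ × ℝ).1.im := q.2
  rw [h1, h2]
  have : (p : ℂ × ℝ).1 = (q : ℂ × ℝ).1 := h
  rw [this]

lemma norm_pr_le (p : E) : ‖pr p‖ ≤ ‖p‖ := by rw [norm_def]; exact le_max_left _ _

lemma im_le (p : E) : 2 * |(pr p).im| ≤ ‖p‖ := by rw [norm_def]; exact le_max_right _ _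

lemma norm_eq_of_re (p : E) (h : 2 * |(pr p).im| ≤ |(pr p).re|) : ‖p‖ = ‖pr p‖ := by
  rw [norm_def]
  apply max_eq_left
  exact h.trans (Complex.abs_re_le_norm _)

instance : CompleteSpace E := FiniteDimensional.complete ℝ E

theorem not_strict : ¬ StrictConvexSpace ℝ E := by
  intro h
  have h1 : ‖mk (Complex.I / 2)‖ ≤ 1 := by
    rw [norm_def]
    have : pr (mk (Complex.I / 2)) = Complex.I / 2 := rfl
    rw [this]
    apply max_le
    · simp; norm_num
    · simp
  have h2 : ‖mk (Complex.I / 2 + 1 / 4)‖ ≤ 1 := by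
    rw [norm_def]
    have : pr (mk (Complex.I / 2 + 1/4)) = Complex.I / 2 + 1 / 4 := rfl
    rw [this]
    apply max_le
    · refine (norm_add_le _ _).trans ?_
      simp; norm_num
    · simp
  have hne : mk (Complex.I / 2) ≠ mk (Complex.I / 2 + 1 / 4) := by
    intro hh
    have := congrArg (fun p => (pr p).re) hh
    simp [pr, mk] at this
  have h3 := norm_combo_lt_of_ne h1 h2 hne (a := 1/2) (b := 1/2) (by norm_num) (by norm_num) (by norm_num)
  have h4 : (1 : ℝ) ≤ ‖(1/2 : ℝ) • mk (Complex.I / 2) + (1/2 : ℝ) • mk (Complex.I / 2 + 1 / 4)‖ := by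
    refine le_trans ?_ (im_le _)
    rw [pr_add, pr_smul, pr_smul]
    have e1 : pr (mk (Complex.I / 2)) = Complex.I / 2 := rfl
    have e2 : pr (mk (Complex.I / 2 + 1/4)) = Complex.I / 2 + 1 / 4 := rfl
    rw [e1, e2]
    simp
    norm_num
  linarith

section
variable (G : Set E)

def nearest (x g : E) : Prop := ∀ y ∈ G, ‖x - g‖ ≤ ‖x - y‖

def W (n : ℕ) : Set E := {x | ∀ g₁ ∈ G, ∀ g₂ ∈ G, nearest G x g₁ → nearest G x g₂ → dist g₁ g₂ < 1 / ((n : ℝ) + 1)}

lemma W_open (hG : IsCompact G) (n : ℕ) : IsOpen (W G n) := by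
  rw [← isClosed_compl_iff]
  apply IsSeqClosed.isClosed
  intro x x0 hx hx0
  have hx' : ∀ k, ∃ g₁ ∈ G, ∃ g₂ ∈ G, nearest G (x k) g₁ ∧ nearest G (x k) g₂ ∧ 1 / ((n : ℝ) + 1) ≤ dist g₁ g₂ := by
    intro k
    have := hx k
    simp only [W, Set.mem_compl_iff, Set.mem_setOf_eq, not_forall, not_lt, exists_prop] at this
    obtain ⟨g₁, h1, g₂, h2, h3, h4, h5⟩ := this
    exact ⟨g₁, h1, g₂, h2, h3, h4, h5⟩
  choose a ha b hb h1 h2 h3 using hx'
  obtain ⟨a0, ha0, φ, hφ, hφa⟩ := hG.tendsto_subseq ha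
  obtain ⟨b0, hb0, ψ, hψ, hψb⟩ := hG.tendsto_subseq (fun k => hb (φ k))
  have hxx : Filter.Tendsto (fun k => x (φ (ψ k))) Filter.atTop (𝓝 x0) :=
    hx0.comp (hφ.tendsto_atTop.comp hψ.tendsto_atTop)
  have haa : Filter.Tendsto (fun k => a (φ (ψ k))) Filter.atTop (𝓝 a0) :=
    hφa.comp hψ.tendsto_atTop
  have hbb : Filter.Tendsto (fun k => b (φ (ψ k))) Filter.atTop (𝓝 b0) := hψb
  intro hmem
  have hlt := hmem a0 ha0 b0 hb0 ?_ ?_
  · have : 1 / ((n : ℝ) + 1) ≤ dist a0 b0 :=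
      ge_of_tendsto (haa.dist hbb) (Filter.Eventually.of_forall fun k => h3 _)
    linarith
  · intro y hy
    exact le_of_tendsto_of_tendsto (hxx.sub haa).norm (hxx.sub tendsto_const_nhds).norm
      (Filter.Eventually.of_forall fun k => h1 _ y hy)
  · intro y hy
    exact le_of_tendsto_of_tendsto (hxx.sub hbb).norm (hxx.sub tendsto_const_nhds).norm
      (Filter.Eventually.of_forall fun k => h2 _ y hy)

end

theorem nonmeagre (G : Set E) (hG : IsCompact G) (hne : G.Nonempty) :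
    ¬ IsMeagre {x : E | ∀ g₁ ∈ G, ∀ g₂ ∈ G,
            (∀ y ∈ G, ‖x - g₁‖ ≤ ‖x - y‖) →
            (∀ y ∈ G, ‖x - g₂‖ ≤ ‖x - y‖) → g₁ = g₂} := by
  intro hM
  obtain ⟨R, hR0, hR⟩ : ∃ R : ℝ, 0 ≤ R ∧ ∀ g ∈ G, ‖g‖ ≤ R := by
    obtain ⟨R, hR⟩ := hG.isBounded.exists_norm_le
    exact ⟨max R 0, le_max_right _ _, fun g hg => (hR g hg).trans (le_max_left _ _)⟩
  set x0 : E := mk ((4 * R + 10 : ℝ) : ℂ) with hx0
  have key : ∀ x ∈ ball x0 1, ∀ g ∈ G, ‖x - g‖ = ‖pr x - pr g‖ ∧ 0 < ‖x - g‖ := by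
    intro x hx g hg
    rw [mem_ball, dist_eq_norm] at hx
    have h1 : ‖pr (x - x0)‖ ≤ ‖x - x0‖ := norm_pr_le _
    have h2 : 2 * |(pr (x - x0)).im| ≤ ‖x - x0‖ := im_le _
    have h3 : ‖pr g‖ ≤ R := (norm_pr_le g).trans (hR g hg)
    have h4 : 2 * |(pr g).im| ≤ R := (im_le g).trans (hR g hg)
    have h5 : |(pr (x - x0)).re| ≤ ‖pr (x - x0)‖ := Complex.abs_re_le_norm _
    have h6 : |(pr g).re| ≤ ‖pr g‖ := Complex.abs_re_le_norm _
    rw [pr_sub] at h2 h5
    have e0 : pr x0 = ((4 * R + 10 : ℝ) : ℂ) := rfl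
    rw [e0, Complex.sub_im, Complex.ofReal_im, sub_zero] at h2
    rw [e0, Complex.sub_re, Complex.ofReal_re] at h5
    rw [pr_sub, e0] at h1
    have h7 := abs_le.1 (h5.trans (h1.trans hx.le))
    have h8 := abs_le.1 (h6.trans h3)
    have h9 : 2 * |(pr (x - g)).im| ≤ R + 1 := by
      rw [pr_sub, Complex.sub_im]
      have := abs_sub (pr x).im (pr g).im
      linarith
    have h10 : R + 1 ≤ (pr (x - g)).re := by
      rw [pr_sub, Complex.sub_re]
      linarith [h7.1, h8.2]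
    have h11 : 2 * |(pr (x - g)).im| ≤ |(pr (x - g)).re| := (h9.trans h10).trans (le_abs_self _)
    have h12 := norm_eq_of_re _ h11
    refine ⟨h12, ?_⟩
    rw [h12]
    have := Complex.abs_re_le_norm (pr (x - g))
    have := le_abs_self (pr (x - g)).re
    linarith
  have dense1 : ∀ n, ball x0 1 ⊆ closure (W G n) := by
    intro n x hx
    obtain ⟨g, hg, hgmin⟩ := hG.exists_isMinOn hne (f := fun y => ‖x - y‖) (by fun_prop)
    have hgn : nearest G x g := fun y hy => hgmin hy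
    obtain ⟨hd, hdpos⟩ := key x hx g hg
    rw [Metric.mem_closure_iff]
    intro ε hε
    -- choose t
    obtain ⟨δ, hδ, hδb⟩ := Metric.isOpen_iff.1 (isOpen_ball (x := x0) (ε := 1)) x hx
    set t : ℝ := min (1/2) (min ε δ / (2 * ‖x - g‖)) with ht
    have ht0 : 0 < t := by
      apply lt_min (by norm_num)
      apply div_pos (lt_min hε hδ) (by linarith)
    have ht1 : t ≤ 1 / 2 := min_le_left _ _
    have ht2 : t * ‖x - g‖ ≤ min ε δ / 2 := by
      have : t ≤ min ε δ / (2 * ‖x - g‖) := min_le_right _ _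
      calc t * ‖x - g‖ ≤ (min ε δ / (2 * ‖x - g‖)) * ‖x - g‖ := by gcongr
        _ = min ε δ / 2 := by field_simp
    set x' : E := x + t • (g - x) with hx'
    have hxx' : dist x x' = t * ‖x - g‖ := by
      rw [dist_eq_norm, hx', sub_add_cancel_left, norm_neg, norm_smul, Real.norm_of_nonneg ht0.le, norm_sub_rev]
    have hxx'lt : dist x x' < min ε δ := by
      rw [hxx']
      have : 0 < min ε δ := lt_min hε hδ
      linarith
    have hx'b : x' ∈ ball x0 1 := hδb (by rw [mem_ball, dist_comm]; exact hxx'lt.trans_le (min_le_right _ _))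
    refine ⟨x', ?_, hxx'lt.trans_le (min_le_left _ _)⟩
    have huniq : ∀ g' ∈ G, nearest G x' g' → g' = g := by
      intro g' hg' hn
      have e1 : ‖x' - g‖ = (1 - t) * ‖x - g‖ := by
        have : x' - g = (1 - t) • (x - g) := by rw [hx']; module
        rw [this, norm_smul, Real.norm_of_nonneg (by linarith)]
      have e2 : ‖x' - g'‖ ≤ (1 - t) * ‖x - g‖ := by rw [← e1]; exact hn g hg
      have e3 : ‖x - g‖ ≤ ‖x - g'‖ := hgn g' hg'
      have e4 : ‖x - g'‖ ≤ ‖x - x'‖ + ‖x' - g'‖ := by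
        have := norm_add_le (x - x') (x' - g')
        rwa [sub_add_sub_cancel] at this
      rw [← dist_eq_norm x x', hxx'] at e4
      have e5 : ‖x - g'‖ = ‖x - g‖ := by nlinarith
      have e6 : ‖x' - g'‖ = (1 - t) * ‖x - g‖ := by nlinarith
      obtain ⟨k1, _⟩ := key x hx g' hg'
      obtain ⟨k2, _⟩ := key x' hx'b g' hg'
      have k3 : pr x' = pr x + t • (pr g - pr x) := rfl
      have k4 : dist (pr x) (pr x') = t * dist (pr x) (pr g') := by
        rw [dist_eq_norm, dist_eq_norm, ← k1, e5, hd, k3, sub_add_cancel_left, norm_neg, norm_smul,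
          Real.norm_of_nonneg ht0.le, norm_sub_rev]
      have k5 : dist (pr x') (pr g') = (1 - t) * dist (pr x) (pr g') := by
        rw [dist_eq_norm, dist_eq_norm, ← k1, ← k2, e6, e5]
      have k6 := eq_lineMap_of_dist_eq_mul_of_dist_eq_mul k4 k5
      rw [AffineMap.lineMap_apply, vsub_eq_sub, vadd_eq_add, k3, add_comm] at k6
      have k7 := add_right_cancel k6
      have k8 := smul_right_injective ℂ ht0.ne' k7
      have k9 : pr g = pr g' := sub_left_injective k8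
      exact (pr_inj k9).symm
    intro g₁ h1 g₂ h2 n1 n2
    rw [huniq g₁ h1 n1, huniq g₂ h2 n2, dist_self]
    positivity
  have hO : ∀ n, W G n ∪ (closedBall x0 1)ᶜ ∈ residual E := by
    intro n
    apply residual_of_dense_open
    · exact (W_open G hG n).union isClosed_closedBall.isOpen_compl
    · intro y
      by_cases hy : y ∈ closedBall x0 1
      · have : y ∈ closure (ball x0 1) := by rw [closure_ball x0 one_ne_zero]; exact hy
        have h2 : y ∈ closure (W G n) := by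
          have := closure_mono (dense1 n) this
          rwa [closure_closure] at this
        exact closure_mono subset_union_left h2
      · exact subset_closure (Or.inr hy)
  have hres := Filter.inter_mem (countable_iInter_mem.2 hO) hM
  have hd := dense_of_mem_residual hres
  obtain ⟨x, hx1, hx2, hx3⟩ := hd.inter_open_nonempty (ball x0 1) isOpen_ball ⟨x0, mem_ball_self one_pos⟩
  apply hx3
  intro g₁ h1 g₂ h2 n1 n2
  apply dist_le_zero.1
  apply le_of_forall_pos_lt_add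
  intro ε hε
  obtain ⟨n, hn⟩ := exists_nat_one_div_lt hε
  have := mem_iInter.1 hx2 n
  rcases this with h | h
  · have := h g₁ h1 g₂ h2 n1 n2
    linarith
  · exact absurd (ball_subset_closedBall hx1) h

theorem main : ¬ (∀ (E : Type) [NormedAddCommGroup E] [NormedSpace ℝ E] [CompleteSpace E],
      (∀ G : Set E, IsCompact G →
        (Dense {x : E | ∀ g₁ ∈ G, ∀ g₂ ∈ G,
            (∀ y ∈ G, ‖x - g₁‖ ≤ ‖x - y‖) →
            (∀ y ∈ G, ‖x - g₂‖ ≤ ‖x - y‖) → g₁ = g₂} ∨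
         ¬ IsMeagre {x : E | ∀ g₁ ∈ G, ∀ g₂ ∈ G,
            (∀ y ∈ G, ‖x - g₁‖ ≤ ‖x - y‖) →
            (∀ y ∈ G, ‖x - g₂‖ ≤ ‖x - y‖) → g₁ = g₂})) →
      StrictConvexSpace ℝ E) := by
  intro h
  apply not_strict
  apply h E
  intro G hG
  rcases G.eq_empty_or_nonempty with hE | hE
  · left
    subst hE
    simp only [Set.mem_empty_iff_false, IsEmpty.forall_iff, implies_true, Set.setOf_true]
    exact dense_univ
  · right
    exact nonmeagre G hG hE

end Pool.Agent.Stechkin
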